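import Mathlib
import Pool.Agent.N176.SH.Stm
import Pool.Agent.N176.GP.Block

set_option autoImplicit false

/-!
# Most cells are good, shifted digits (after `N176/OW/GC.lean`)
-/

namespace Pool.Agent.N607.SH

open Finset Filter Topology
open Pool.Agent.H305R2 (roughPart)
open Pool.Agent.N176.GP (card_primes log_div_le)
open Pool.Agent.N176.OW (kap VT S_FM)
open Pool.Agent.N176.SH (Ok sh cnt mT S_GC)

/-- counting after a shift -/
theorem shift_card (c : ℤ) (a L : ℕ) (hc : |c| ≤ a) (Q : ℕ → Prop) [DecidablePred Q] :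
    |(((Ico a (a + L)).filter (fun n : ℕ => Q ((n : ℤ) + c).toNat)).card : ℤ) -
      (((Ico a (a + L)).filter (fun n : ℕ => Q n)).card : ℤ)| ≤ |c| := by
  classical
  set S1 := (Ico a (a + L)).filter (fun n : ℕ => Q ((n : ℤ) + c).toNat) with hS1
  set S2 := (Ico a (a + L)).filter (fun n : ℕ => Q n) with hS2
  have hca : -(a : ℤ) ≤ c ∧ c ≤ a := abs_le.1 hc
  set S3 := S1.image (fun n : ℕ => ((n : ℤ) + c).toNat) with hS3
  have hcard : S3.card = S1.card := by
    apply card_image_of_injOn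
    intro n hn m hm hnm
    rw [hS1, coe_filter, Set.mem_ofPred_eq, mem_Ico] at hn hm
    simp only at hnm
    omega
  have h31 : (S3.card : ℤ) ≤ S2.card + |c| := by
    have h1 : S3 ⊆ S2 ∪ ((Ico (a + L) (a + L + c.natAbs)) ∪ (Ico (a - c.natAbs) a)) := by
      intro n hn
      rw [hS3, mem_image] at hn
      obtain ⟨m, hm, rfl⟩ := hn
      rw [hS1, mem_filter, mem_Ico] at hm
      rw [mem_union, hS2, mem_filter, mem_Ico, mem_union, mem_Ico, mem_Ico]
      by_cases h2 : a ≤ ((m : ℤ) + c).toNat ∧ ((m : ℤ) + c).toNat < a + L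
      · exact Or.inl ⟨h2, hm.2⟩
      · right
        omega
    have h2 : S3 ⊆ S2 ∪ (if 0 ≤ c then Ico (a + L) (a + L + c.natAbs) else Ico (a - c.natAbs) a) := by
      intro n hn
      rw [hS3, mem_image] at hn
      obtain ⟨m, hm, rfl⟩ := hn
      rw [hS1, mem_filter, mem_Ico] at hm
      rw [mem_union, hS2, mem_filter, mem_Ico]
      by_cases h2 : a ≤ ((m : ℤ) + c).toNat ∧ ((m : ℤ) + c).toNat < a + L
      · exact Or.inl ⟨h2, hm.2⟩
      · right
        by_cases h3 : 0 ≤ c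
        · rw [if_pos h3, mem_Ico]
          omega
        · rw [if_neg h3, mem_Ico]
          omega
    have h3 : (if 0 ≤ c then Ico (a + L) (a + L + c.natAbs) else Ico (a - c.natAbs) a).card ≤
        c.natAbs := by
      by_cases h3 : 0 ≤ c
      · rw [if_pos h3, Nat.card_Ico]
        omega
      · rw [if_neg h3, Nat.card_Ico]
        omega
    have h4 := (card_le_card h2).trans (card_union_le _ _)
    have h5 : S3.card ≤ S2.card + c.natAbs := by omega
    rw [Int.abs_eq_natAbs]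
    exact_mod_cast h5
  have h13 : (S2.card : ℤ) ≤ S3.card + |c| := by
    have h2 : S2 ⊆ S3 ∪ (if 0 ≤ c then Ico a (a + c.natAbs) else
        Ico (a + L - c.natAbs) (a + L)) := by
      intro n hn
      rw [hS2, mem_filter, mem_Ico] at hn
      rw [mem_union, hS3, mem_image]
      by_cases h2 : (a : ℤ) ≤ (n : ℤ) - c ∧ (n : ℤ) - c < a + L
      · left
        refine ⟨((n : ℤ) - c).toNat, ?_, ?_⟩
        · rw [hS1, mem_filter, mem_Ico]
          have h3 : (((((n : ℤ) - c).toNat : ℕ) : ℤ) + c).toNat = n := by omega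
          rw [h3]
          exact ⟨by omega, hn.2⟩
        · omega
      · right
        by_cases h3 : 0 ≤ c
        · rw [if_pos h3, mem_Ico]
          omega
        · rw [if_neg h3, mem_Ico]
          omega
    have h3 : (if 0 ≤ c then Ico a (a + c.natAbs) else
        Ico (a + L - c.natAbs) (a + L)).card ≤ c.natAbs := by
      by_cases h3 : 0 ≤ c
      · rw [if_pos h3, Nat.card_Ico]
        omega
      · rw [if_neg h3, Nat.card_Ico]
        omega
    have h4 := (card_le_card h2).trans (card_union_le _ _)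
    have h5 : S2.card ≤ S3.card + c.natAbs := by omega
    rw [Int.abs_eq_natAbs]
    exact_mod_cast h5
  rw [hcard] at h31 h13
  rw [abs_le]
  constructor <;> linarith

/-- the counts after the shift -/
theorem cnt_shift {b A : ℕ} {c : ℕ → ℤ} (H : Ok b A c) {z q m : ℕ} (hm : 1 ≤ m)
    (hz : A * z ≤ q) (hq : A ≤ q) :
    |(cnt c b z m q : ℝ) / (b : ℝ) ^ (q - z) -
      (Pool.Agent.N176.GP.cnt b z m q : ℝ) / (b : ℝ) ^ (q - z)| ≤ 1 / (b : ℝ) ^ z := by
  have hb := H.hb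
  have hA := H.hA
  have hbR : (2 : ℝ) ≤ b := by exact_mod_cast hb
  have hb0 : (0 : ℝ) < b := by linarith
  have hzq : z ≤ q := by nlinarith
  have h1 := H.size q hq
  have h2 : z ≤ q / A := by
    rw [Nat.le_div_iff_mul_le (by omega)]
    linarith [Nat.mul_comm A z]
  have h3 : |c q| * (b : ℤ) ^ (2 * z) ≤ (b : ℤ) ^ q := by
    refine le_trans ?_ h1
    apply mul_le_mul_of_nonneg_left _ (abs_nonneg _)
    exact pow_le_pow_right₀ (by omega) (by omega)
  have h4 : |c q| * (b : ℤ) ^ z ≤ (b : ℤ) ^ (q - z) := by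
    have h5 : (b : ℤ) ^ q = (b : ℤ) ^ (q - z) * (b : ℤ) ^ z := by
      rw [← pow_add]
      congr 1
      omega
    have h6 : (b : ℤ) ^ (2 * z) = (b : ℤ) ^ z * (b : ℤ) ^ z := by
      rw [← pow_add]
      congr 1
      omega
    rw [h5, h6, ← mul_assoc] at h3
    exact le_of_mul_le_mul_right h3 (by positivity)
  have h5 : |c q| ≤ ((m * b ^ (q - z) : ℕ) : ℤ) := by
    push_cast
    have h6 : (1 : ℤ) ≤ (b : ℤ) ^ z := one_le_pow₀ (by omega)
    have h7 : |c q| ≤ |c q| * (b : ℤ) ^ z := le_mul_of_one_le_right (abs_nonneg _) h6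
    have h8 : (b : ℤ) ^ (q - z) ≤ (m : ℤ) * (b : ℤ) ^ (q - z) :=
      le_mul_of_one_le_left (by positivity) (by exact_mod_cast hm)
    linarith
  have h6 := shift_card (c q) (m * b ^ (q - z)) (b ^ (q - z)) h5 (fun n => (roughPart q n).Prime)
  have e1 : m * b ^ (q - z) + b ^ (q - z) = (m + 1) * b ^ (q - z) := by ring
  rw [e1] at h6
  have h7 : |(cnt c b z m q : ℝ) - (Pool.Agent.N176.GP.cnt b z m q : ℝ)| ≤ ((|c q| : ℤ) : ℝ) := by
    have h8 : |((cnt c b z m q : ℕ) : ℤ) - ((Pool.Agent.N176.GP.cnt b z m q : ℕ) : ℤ)| ≤ |c q| := h6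
    have h9 : ((|((cnt c b z m q : ℕ) : ℤ) - ((Pool.Agent.N176.GP.cnt b z m q : ℕ) : ℤ)| : ℤ) : ℝ) ≤
      ((|c q| : ℤ) : ℝ) := by exact_mod_cast h8
    push_cast at h9 ⊢
    exact h9
  rw [← sub_div, abs_div, abs_of_nonneg (show (0 : ℝ) ≤ (b : ℝ) ^ (q - z) by positivity),
    div_le_div_iff₀ (by positivity) (by positivity), one_mul]
  have h8 : ((|c q| : ℤ) : ℝ) * (b : ℝ) ^ z ≤ (b : ℝ) ^ (q - z) := by exact_mod_cast h4
  exact (mul_le_mul_of_nonneg_right h7 (by positivity)).trans h8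

theorem gc (h : Pool.Agent.N176.OW.S_FM) : Pool.Agent.N176.SH.S_GC := by
  intro b A c H
  have hb := H.hb
  have hA := H.hA
  obtain ⟨κ0, K0, hκ0, hK0, hfm⟩ := h b hb
  obtain ⟨C3, hC3, hcard⟩ := card_primes
  have hl2 : 0 < Real.log 2 := Real.log_pos (by norm_num)
  have hbR : (2 : ℝ) ≤ b := by exact_mod_cast hb
  have hb0 : (0 : ℝ) < b := by linarith
  obtain ⟨k, hk⟩ := exists_pow_lt_of_lt_one hκ0 (by norm_num : (1 / 2 : ℝ) < 1)
  have hAk : A ≤ 2 ^ (k + 7 + A - 1) := by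
    have h1 : A < 2 ^ A := Nat.lt_two_pow_self
    have h2 : 2 ^ A ≤ 2 ^ (k + 7 + A - 1) := Nat.pow_le_pow_right (by norm_num) (by omega)
    omega
  refine ⟨k + 7 + A, by omega, hAk, K0 / Real.log 2, by positivity, fun m0 => ?_⟩
  obtain ⟨P, hP⟩ := hfm m0
  have hlim := tendsto_pow_const_div_const_pow_of_one_lt 5 (by norm_num : (1 : ℝ) < 2)
  have hev : ∀ᶠ n : ℕ in atTop, (n : ℝ) ^ 5 / 2 ^ n < 1 / (8 * C3 * Real.log 2) :=
    hlim.eventually (gt_mem_nhds (by positivity))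
  obtain ⟨P2, hP2⟩ := eventually_atTop.1 hev
  have hlim1 := tendsto_pow_const_div_const_pow_of_one_lt 1 (by norm_num : (1 : ℝ) < 2)
  have hev1 : ∀ᶠ n : ℕ in atTop, (n : ℝ) ^ 1 / 2 ^ n < 1 / 2 ^ (k + 7 + A + 1) :=
    hlim1.eventually (gt_mem_nhds (by positivity))
  obtain ⟨P3, hP3⟩ := eventually_atTop.1 hev1
  have hlim2 := tendsto_pow_const_div_const_pow_of_one_lt 2 (by norm_num : (1 : ℝ) < 2)
  have hev2 : ∀ᶠ n : ℕ in atTop, (n : ℝ) ^ 2 / 2 ^ n < 1 / 2 :=
    hlim2.eventually (gt_mem_nhds (by positivity))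
  obtain ⟨P4, hP4⟩ := eventually_atTop.1 hev2
  refine ⟨P + m0 + (k + 7 + A) + P2 + P3 + P4 + 1, fun i hi T hT => ?_⟩
  have hi1 : 1 ≤ i := by omega
  have hiR : (1 : ℝ) ≤ i := by exact_mod_cast hi1
  have hi0 : (0 : ℝ) < i := by linarith
  set z := 2 ^ (i + 1 - (k + 7 + A)) with hz
  have hx2 : 2 ≤ 2 ^ i := by
    calc 2 = 2 ^ 1 := rfl
      _ ≤ 2 ^ i := Nat.pow_le_pow_right (by norm_num) hi1
  have hT' : ∀ p ∈ T, p.Prime ∧ 2 ^ i < p ∧ p ≤ 2 * 2 ^ i := by
    intro p hp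
    obtain ⟨h1, h2, h3⟩ := hT p hp
    exact ⟨h1, h2, by rw [pow_succ] at h3; omega⟩
  have hx0 : (0 : ℝ) < 2 ^ i := by positivity
  have hlogx : Real.log ((2 ^ i : ℕ) : ℝ) = i * Real.log 2 := by
    push_cast
    rw [Real.log_pow]
  have hcT : (T.card : ℝ) ≤ C3 * 2 ^ i / (i * Real.log 2) := by
    have := hcard (2 ^ i) hx2 T hT'
    rw [hlogx] at this
    push_cast at this
    exact this
  have hcT2 : (T.card : ℝ) ≤ 2 ^ i := by
    have h1 : T ⊆ Ioc (2 ^ i) (2 * 2 ^ i) := fun p hp => by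
      rw [mem_Ioc]
      exact (hT' p hp).2
    have h2 := card_le_card h1
    rw [Nat.card_Ioc] at h2
    have h3 : T.card ≤ 2 ^ i := by omega
    exact_mod_cast h3
  have hm0z : m0 ≤ z := by
    have h1 : i + 1 - (k + 7 + A) < 2 ^ (i + 1 - (k + 7 + A)) := Nat.lt_two_pow_self
    omega
  have hpowz : (2 : ℝ) ^ i = 2 ^ (i + 1 - (k + 7 + A)) * 2 ^ (k + 6 + A) := by
    rw [← pow_add]
    congr 1
    omega
  have hz' : (z : ℝ) = (2 : ℝ) ^ (i + 1 - (k + 7 + A)) := by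
    rw [hz, Nat.cast_pow, Nat.cast_ofNat]
  have hAz : A * z ≤ 2 ^ i := by
    have h3 : 2 ^ i = 2 ^ (k + 7 + A - 1) * 2 ^ (i + 1 - (k + 7 + A)) := by
      rw [← pow_add]
      congr 1
      omega
    rw [h3, hz]
    exact Nat.mul_le_mul_right _ hAk
  have hAi : A ≤ 2 ^ i := by
    have h1 : i < 2 ^ i := Nat.lt_two_pow_self
    omega
  have hzκ : ∀ q ∈ T, (z : ℝ) ≤ κ0 * q := by
    intro q hq
    have h1 : (2 : ℝ) ^ i ≤ q := by exact_mod_cast (hT q hq).2.1.le
    have h2 : (z : ℝ) ≤ κ0 * 2 ^ i := by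
      have h4 : (1 : ℝ) ≤ κ0 * 2 ^ (k + 6 + A) := by
        have h5 : (1 / 2 : ℝ) ^ k * 2 ^ k = 1 := by
          rw [← mul_pow]
          norm_num
        have h6 : (2 : ℝ) ^ k ≤ 2 ^ (k + 6 + A) := pow_le_pow_right₀ (by norm_num) (by omega)
        have h7 : (0 : ℝ) < 2 ^ k := by positivity
        calc (1 : ℝ) = (1 / 2 : ℝ) ^ k * 2 ^ k := h5.symm
          _ ≤ κ0 * 2 ^ (k + 6 + A) := mul_le_mul hk.le h6 h7.le hκ0.le
      rw [hpowz, hz']
      have h5 : (0 : ℝ) < 2 ^ (i + 1 - (k + 7 + A)) := by positivity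
      calc (2 : ℝ) ^ (i + 1 - (k + 7 + A)) = 1 * 2 ^ (i + 1 - (k + 7 + A)) := (one_mul _).symm
        _ ≤ (κ0 * 2 ^ (k + 6 + A)) * 2 ^ (i + 1 - (k + 7 + A)) :=
            mul_le_mul_of_nonneg_right h4 h5.le
        _ = κ0 * (2 ^ (i + 1 - (k + 7 + A)) * 2 ^ (k + 6 + A)) := by ring
    exact h2.trans (mul_le_mul_of_nonneg_left h1 hκ0.le)
  have hPq : ∀ q ∈ T, P ≤ q := by
    intro q hq
    have h1 : i < 2 ^ i := Nat.lt_two_pow_self
    have h2 := (hT q hq).2.1
    omega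
  -- the shift
  have hsh : ∀ m, 1 ≤ m → |mT c b z T m - Pool.Agent.N176.OW.mT b z T m| ≤
      1 / (2 * (i : ℝ) ^ 2) := by
    intro m hm
    have h1 : mT c b z T m - Pool.Agent.N176.OW.mT b z T m = ∑ q ∈ T,
        ((cnt c b z m q : ℝ) / (b : ℝ) ^ (q - z) -
          (Pool.Agent.N176.GP.cnt b z m q : ℝ) / (b : ℝ) ^ (q - z)) := by
      rw [sum_sub_distrib]
      rfl
    rw [h1]
    refine (abs_sum_le_sum_abs _ _).trans ?_
    have h2 : ∀ q ∈ T, |(cnt c b z m q : ℝ) / (b : ℝ) ^ (q - z) -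
          (Pool.Agent.N176.GP.cnt b z m q : ℝ) / (b : ℝ) ^ (q - z)| ≤ 1 / (b : ℝ) ^ z := by
      intro q hq
      have h3 := (hT' q hq).2.1
      exact cnt_shift H hm (by omega) (by omega)
    refine (sum_le_sum h2).trans ?_
    rw [sum_const, nsmul_eq_mul, mul_one_div]
    have h3 : (2 : ℝ) ^ z ≤ (b : ℝ) ^ z := pow_le_pow_left₀ (by norm_num) hbR z
    have h4 := hP3 i (by omega)
    have h5 := hP4 i (by omega)
    rw [pow_one, div_lt_div_iff₀ (by positivity) (by positivity), one_mul] at h4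
    rw [div_lt_div_iff₀ (by positivity) (by positivity), one_mul] at h5
    have h6 : 2 * (i : ℝ) ≤ z := by
      have h7 : (i : ℝ) * 2 ^ (k + 7 + A + 1) = (2 * i) * (2 * 2 ^ (k + 6 + A)) := by
        have : k + 7 + A + 1 = k + 6 + A + 2 := by omega
        rw [this, pow_add]
        ring
      rw [h7, hpowz, ← hz'] at h4
      have h8 : (0 : ℝ) < 2 ^ (k + 6 + A) := by positivity
      have h9 : (2 * (i : ℝ)) * 2 ^ (k + 6 + A) ≤ (z : ℝ) * 2 ^ (k + 6 + A) := by
        have h10 : 0 ≤ (2 * (i : ℝ)) * 2 ^ (k + 6 + A) := by positivity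
        linarith
      exact le_of_mul_le_mul_right h9 h8
    have h7 : 2 * i ≤ z := by exact_mod_cast h6
    have h8 : (2 : ℝ) ^ i * 2 ^ i ≤ 2 ^ z := by
      rw [← pow_add]
      exact pow_le_pow_right₀ (by norm_num) (by omega)
    rw [div_le_div_iff₀ (by positivity) (by positivity), one_mul]
    calc (T.card : ℝ) * (2 * (i : ℝ) ^ 2) ≤ 2 ^ i * 2 ^ i :=
          mul_le_mul hcT2 (by linarith) (by positivity) (by positivity)
      _ ≤ (b : ℝ) ^ z := h8.trans h3
  -- the sum of the excesses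
  set Y : ℕ → ℕ → ℝ := fun q m => max 0 (|(Pool.Agent.N176.GP.cnt b z m q : ℝ) / (b : ℝ) ^ (q - z) -
    Real.exp Real.eulerMascheroniConstant / Real.log b * (Real.log q / q)| - K0 / q) with hY
  have hY0 : ∀ q m, 0 ≤ Y q m := fun q m => le_max_left _ _
  have hsumK : ∑ q ∈ T, K0 / (q : ℝ) ≤ K0 / Real.log 2 * VT T / i := by
    unfold VT
    rw [mul_sum, sum_div]
    refine sum_le_sum fun q hq => ?_
    have h1 : (2 : ℝ) ^ i ≤ q := by exact_mod_cast (hT q hq).2.1.le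
    have hq0 : (0 : ℝ) < q := lt_of_lt_of_le hx0 h1
    have h2 : i * Real.log 2 ≤ Real.log q := by
      rw [← Real.log_pow]
      exact Real.log_le_log hx0 h1
    have h3 : 1 ≤ Real.log q / (i * Real.log 2) := by
      rw [one_le_div (by positivity)]
      exact h2
    calc K0 / (q : ℝ) = K0 / q * 1 := (mul_one _).symm
      _ ≤ K0 / q * (Real.log q / (i * Real.log 2)) := mul_le_mul_of_nonneg_left h3 (by positivity)
      _ = K0 / Real.log 2 * (Real.log q / q) / i := by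
          field_simp
  have hdev : ∀ m, |Pool.Agent.N176.OW.mT b z T m - kap b * VT T| ≤
      ∑ q ∈ T, Y q m + K0 / Real.log 2 * VT T / i := by
    intro m
    have h1 : Pool.Agent.N176.OW.mT b z T m - kap b * VT T =
        ∑ q ∈ T, ((Pool.Agent.N176.GP.cnt b z m q : ℝ) / (b : ℝ) ^ (q - z) -
        Real.exp Real.eulerMascheroniConstant / Real.log b * (Real.log q / q)) := by
      rw [sum_sub_distrib, ← mul_sum]
      rfl
    rw [h1]
    refine (abs_sum_le_sum_abs _ _).trans ?_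
    have h2 : ∀ q ∈ T, |(Pool.Agent.N176.GP.cnt b z m q : ℝ) / (b : ℝ) ^ (q - z) -
        Real.exp Real.eulerMascheroniConstant / Real.log b * (Real.log q / q)| ≤ Y q m + K0 / q := by
      intro q _
      have := le_max_right (0 : ℝ) (|(Pool.Agent.N176.GP.cnt b z m q : ℝ) / (b : ℝ) ^ (q - z) -
        Real.exp Real.eulerMascheroniConstant / Real.log b * (Real.log q / q)| - K0 / q)
      have h3 : |(Pool.Agent.N176.GP.cnt b z m q : ℝ) / (b : ℝ) ^ (q - z) -
        Real.exp Real.eulerMascheroniConstant / Real.log b * (Real.log q / q)| - K0 / q ≤ Y q m := this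
      linarith
    refine (sum_le_sum h2).trans ?_
    rw [sum_add_distrib]
    linarith
  set W := Ico (b ^ (z - m0)) (b ^ (z + m0)) with hW
  have hW1 : ∀ m ∈ W, 1 ≤ m := by
    intro m hm
    rw [hW, mem_Ico] at hm
    have h1 : 0 < b ^ (z - m0) := Nat.pow_pos (by omega)
    omega
  have hbad : ∀ m ∈ W.filter (fun m => 1 / (i : ℝ) ^ 2 + K0 / Real.log 2 * VT T / i <
      |mT c b z T m - kap b * VT T|), 1 / (2 * (i : ℝ) ^ 2) ≤ ∑ q ∈ T, Y q m := by
    intro m hm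
    rw [mem_filter] at hm
    have h1 := hsh m (hW1 m hm.1)
    have h2 := hdev m
    have h3 : |mT c b z T m - kap b * VT T| ≤ |mT c b z T m - Pool.Agent.N176.OW.mT b z T m| +
        |Pool.Agent.N176.OW.mT b z T m - kap b * VT T| := abs_sub_le _ _ _
    have h4 : 1 / (i : ℝ) ^ 2 = 1 / (2 * (i : ℝ) ^ 2) + 1 / (2 * (i : ℝ) ^ 2) := by
      field_simp
      norm_num
    have h5 := hm.2
    linarith
  have h1 := card_nsmul_le_sum _ _ _ hbad
  rw [nsmul_eq_mul] at h1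
  have h2 : ∑ m ∈ W.filter (fun m => 1 / (i : ℝ) ^ 2 + K0 / Real.log 2 * VT T / i <
      |mT c b z T m - kap b * VT T|), ∑ q ∈ T, Y q m ≤ ∑ m ∈ W, ∑ q ∈ T, Y q m :=
    sum_le_sum_of_subset_of_nonneg (filter_subset _ _) (fun m _ _ => sum_nonneg fun q _ => hY0 q m)
  have h3 : ∑ m ∈ W, ∑ q ∈ T, Y q m ≤ (b : ℝ) ^ z * (4 * C3 * (i * Real.log 2) / 2 ^ i) := by
    rw [sum_comm]
    have h4 : ∀ q ∈ T, ∑ m ∈ W, Y q m ≤ (b : ℝ) ^ z * (2 * (i * Real.log 2) / 2 ^ i) ^ 2 := by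
      intro q hq
      refine (hP q (hPq q hq) z hm0z (hzκ q hq)).trans ?_
      apply mul_le_mul_of_nonneg_left _ (by positivity)
      rw [← div_pow]
      have h5 := log_div_le hx2 (hT' q hq).2.1 (hT' q hq).2.2
      rw [hlogx] at h5
      push_cast at h5
      have h6 : 0 ≤ Real.log q / q := by
        have := Real.log_natCast_nonneg q
        positivity
      exact pow_le_pow_left₀ h6 h5 2
    refine (sum_le_sum h4).trans ?_
    rw [sum_const, nsmul_eq_mul]
    calc (T.card : ℝ) * ((b : ℝ) ^ z * (2 * (i * Real.log 2) / 2 ^ i) ^ 2)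
        ≤ (C3 * 2 ^ i / (i * Real.log 2)) * ((b : ℝ) ^ z * (2 * (i * Real.log 2) / 2 ^ i) ^ 2) :=
          mul_le_mul_of_nonneg_right hcT (by positivity)
      _ = (b : ℝ) ^ z * (4 * C3 * (i * Real.log 2) / 2 ^ i) := by
          field_simp
          ring
  have h4 := (h1.trans h2).trans h3
  have h5 := hP2 i (by omega)
  set N := ((W.filter (fun m => 1 / (i : ℝ) ^ 2 + K0 / Real.log 2 * VT T / i <
    |mT c b z T m - kap b * VT T|)).card : ℝ) with hN
  rw [mul_one_div, div_le_iff₀ (by positivity)] at h4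
  refine h4.trans ?_
  rw [div_lt_div_iff₀ (by positivity) (by positivity)] at h5
  rw [div_eq_mul_one_div ((b : ℝ) ^ z) _, mul_assoc]
  apply mul_le_mul_of_nonneg_left _ (by positivity)
  rw [div_mul_eq_mul_div, div_le_div_iff₀ (by positivity) (by positivity)]
  nlinarith

end Pool.Agent.N607.SH
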